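import Pool.Agent.Helper204.CL.Main1

open MvPolynomial Finset

namespace Pool.Agent.Results.MP_2558e3_co.ClusterBasis

open Clu

/-- For all `N, k ≥ 1`: there is exactly one family of Jack superpolynomials `P_Λ` in `N` variables; for every
`(k,2,N)`-admissible `Λ` its coefficients have no pole at `α = -(k+1)`, and the specialised `P_Λ^{(-(k+1))}`, `Λ` ranging
over the `(k,2,N)`-admissible superpartitions, form a `ℂ`-basis of the space `F_N^{(k)}` of symmetric superpolynomials
vanishing for `x_1 = ⋯ = x_{k+1}`. -/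
theorem result (N k : ℕ) (_hN : 1 ≤ N) (hk : 1 ≤ k) :
    ∃ c : SPart N → (SPart N →₀ RatFunc ℚ), IsJack c ∧ (∀ c', IsJack c' → c' = c) ∧
      (∀ L, Admissible k 2 L → ∀ W, RegularAt (-((k : ℚ) + 1)) (c L W)) ∧
      LinearIndependent ℂ (fun L : {L : SPart N // Admissible k 2 L} =>
        special (-((k : ℚ) + 1)) (c L)) ∧
      Submodule.span ℂ (Set.range (fun L : {L : SPart N // Admissible k 2 L} =>
        special (-((k : ℚ) + 1)) (c L))) = clusterSpace N k :=
  main_all N k hk

end Pool.Agent.Results.MP_2558e3_co.ClusterBasis
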